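import Mathlib
import Pool.Agent.X321.MQ.Fld

set_option autoImplicit false

/-! # MP_600e55_nt: Efrat's conjecture for fields with many quaternion algebras, `p = 2`

Let `F` be a field of characteristic different from `2` with finitely many square classes, and let
`q` be their number. There are at most about `q² / 6` quaternion algebras over `F`. We show that
Efrat's arithmetic form of the elementary type conjecture holds for `F` if there are more than
`q² / 12 + q` quaternion algebras over `F` (or, if `-1` is a square, more than `q² / 24 + 1`): the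
maximal pro-2 Galois group of `F` is the decomposition group of a valuation with nontrivial
inertia. The same holds if more than half of the square classes `a` are half rigid, that is, if
the norm group of `a` is generated by `-a` and the squares.

The proof counts, for every quaternion algebra `t`, the pairs `(u, v)` with `t = (u, v)`, with
weights that depend on the number of the half rigid elements among `u, v`: the weight of every `t`
is at least `24`, by the linkage property. So fields with many quaternion algebras have birigid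
elements, and these give valuations. The case in which the elements which are not birigid have
index two is treated in `Pool/Agent/X321/MQ/Pcd.lean`. -/

namespace Pool.Agent.Results.MP_600e55_nt.ManyQuaternionAlgebras

open scoped Quaternion
open Pool.Agent.H315R3.ETC Pool.Agent.TH188.ET Pool.Agent.Y920.ETC Pool.Agent.X321.MQ

/-- the group of squares of `F*` -/
def squares (F : Type) [Field F] : Subgroup Fˣ := (powMonoidHom 2 : Fˣ →* Fˣ).range

/-- With `q` the number of square classes of `F`: there are more than `q² / 12 + q` pairwise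
non-isomorphic quaternion algebras `(a, b)` over `F`, or `-1` is a square in `F` and there are more
than `q² / 24 + 1` of them. -/
def ManyAlgebras (F : Type) [Field F] : Prop :=
  ∃ (m : ℕ) (a b : Fin m → Fˣ),
    (∀ i j, i ≠ j →
      IsEmpty (ℍ[F,(a i : F),0,(b i : F)] ≃ₐ[F] ℍ[F,(a j : F),0,(b j : F)])) ∧
    ((squares F).index ^ 2 + 12 * (squares F).index < 12 * m ∨
      (IsSquare (-1 : F) ∧ (squares F).index ^ 2 + 24 < 24 * m))

/-- `a` is half rigid: every nonzero value of `y² - a z²` is a square or `-a` times a square -/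
def HalfRigid {F : Type} [Field F] (a : Fˣ) : Prop :=
  ∀ (c : Fˣ) (y z : F), (c : F) = y ^ 2 - a * z ^ 2 → c ∈ squares F ∨ -a * c ∈ squares F

/-- More than half of the square classes of `F` are classes of half rigid elements, and there are
at least eight square classes, or at least four if `-1` is a square in `F`. -/
def ManyHalfRigid (F : Type) [Field F] : Prop :=
  (8 ≤ (squares F).index ∨ (4 ≤ (squares F).index ∧ IsSquare (-1 : F))) ∧
    (squares F).index <
      2 * {x : Fˣ ⧸ squares F | ∃ a : Fˣ, (a : Fˣ ⧸ squares F) = x ∧ HalfRigid a}.ncard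

/-- `K` is the compositum of the finite Galois extensions of `F` of 2-power degree -/
def IsMaximalTwoExtension {F : Type} [Field F] (K : IntermediateField F (AlgebraicClosure F)) :
    Prop :=
  K = sSup {L : IntermediateField F (AlgebraicClosure F) |
    FiniteDimensional F L ∧ IsGalois F L ∧ ∃ k : ℕ, Module.finrank F L = 2 ^ k}

lemma exists_beta {S : QData} [Finite S.G] (B : Subgroup S.G)
    (hq : 5 ≤ Nat.card S.G ∨ (4 ≤ Nat.card S.G ∧ S.neg = 1)) :
    Nat.card S.G = 2 * Nat.card B → ∃ β ∈ B, β ≠ 1 ∧ β ≠ S.neg := by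
  classical
  intro hc
  by_contra hcon
  push Not at hcon
  have h1 : (B : Set S.G) ⊆ (({1, S.neg} : Finset S.G) : Set S.G) := by
    intro b hb
    by_cases hb1 : b = 1
    · simp [hb1]
    · simp [hcon b hb hb1]
  have h2 := Set.ncard_le_ncard h1 (Set.toFinite _)
  rw [Set.ncard_coe_finset] at h2
  have h3 : (B : Set S.G).ncard = Nat.card B := rfl
  rw [h3] at h2
  have h4 : ({1, S.neg} : Finset S.G).card ≤ 2 := Finset.card_le_two
  rcases hq with hq | ⟨hq, hn⟩
  · omega
  · rw [hn, Finset.pair_eq_singleton, Finset.card_singleton] at h2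
    omega

theorem result (F : Type) [Field F] (h2 : (2 : F) ≠ 0) (hfin : (squares F).index ≠ 0)
    (hmany : ManyAlgebras F ∨ ManyHalfRigid F)
    (K : IntermediateField F (AlgebraicClosure F)) (hK : IsMaximalTwoExtension K) :
    -- `Gal(K/F)` is the decomposition group of a valuation with nontrivial inertia
    (∃ (Γ : Type) (_ : LinearOrderedCommGroupWithZero Γ) (w : Valuation K Γ),
      (∀ (σ : K ≃ₐ[F] K) (x : K), w (σ x) ≤ 1 ↔ w x ≤ 1) ∧
      ∃ σ : K ≃ₐ[F] K, σ ≠ 1 ∧ ∀ x : K, w x ≤ 1 → w (σ x - x) < 1) ∧
    -- the conclusion of Q1 for `p = 2`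
    ∃ (n : ℕ) (H : Fin n → Subgroup (↥K ≃ₐ[F] ↥K)),
      (∀ i, IsClosed (H i : Set (↥K ≃ₐ[F] ↥K))) ∧
      (∀ (P : Type) [Group P] [Finite P], (∃ k : ℕ, Nat.card P = 2 ^ k) →
        ∀ φ : (i : Fin n) → (H i →* P), (∀ i, IsOpen ((φ i).ker : Set (H i))) →
          ∃! ψ : (↥K ≃ₐ[F] ↥K) →* P,
            IsOpen (ψ.ker : Set (↥K ≃ₐ[F] ↥K)) ∧
            ∀ i, ∀ x : H i, ψ (x : ↥K ≃ₐ[F] ↥K) = φ i x) ∧
      (∀ i,
        Nonempty (H i ≃ₜ* Multiplicative (PadicInt 2)) ∨
        (∃ (Γ : Type) (_ : LinearOrderedCommGroupWithZero Γ) (w : Valuation (↥K) Γ),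
          (∀ σ : ↥K ≃ₐ[F] ↥K, σ ∈ H i ↔ ∀ x : ↥K, (w (σ x) ≤ 1 ↔ w x ≤ 1)) ∧
          ∃ σ ∈ H i, σ ≠ 1 ∧ ∀ x : ↥K, w x ≤ 1 → w (σ x - x) < 1) ∨
        ((2 : ℕ) = 2 ∧ Nat.card (H i) = 2)) := by
  classical
  have hF : FinSq F := by
    have : Finite (Fˣ ⧸ squares F) := by
      by_contra hc
      rw [not_finite_iff_infinite] at hc
      exact hfin Nat.card_eq_zero_of_infinite
    exact this
  obtain ⟨S, hS, hSf, hSq⟩ := exists_structure h2 hF
  obtain ⟨φ, hs, hk, hn, h0, hq⟩ := hS
  obtain ⟨B, hB⟩ := Pool.Agent.Y67.ET.t_BASIC S hSq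
  have hft : Fintype S.G := Fintype.ofFinite _
  have hcard : Nat.card S.G = (squares F).index := card_eq hs hk
  have hneg1 : IsSquare (-1 : F) → S.neg = 1 := by
    rintro ⟨r, hr⟩
    have hr0 : r ≠ 0 := by
      rintro rfl
      rw [mul_zero, neg_eq_zero] at hr
      exact one_ne_zero hr
    rw [← hn, hk]
    refine ⟨Units.mk0 r hr0, ?_⟩
    apply Units.ext
    rw [Units.val_neg, Units.val_one, Units.val_pow_eq_pow_val, Units.val_mk0, hr, pow_two]
  -- a birigid class
  obtain ⟨hbi, hsize⟩ : (∃ a : S.G, Bi S a) ∧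
      (5 ≤ Nat.card S.G ∨ (4 ≤ Nat.card S.G ∧ S.neg = 1)) := by
    rcases hmany with ⟨m, a, b, hab, hm⟩ | ⟨h8, hm⟩
    · have hle : m ≤ (vals S).card := by
        have h1 := Finset.card_le_card_of_injOn (s := (Finset.univ : Finset (Fin m)))
          (t := vals S) (fun i => S.q (φ (a i)) (φ (b i))) (by
            intro i _
            rw [Finset.mem_coe, vals, Finset.mem_image]
            exact ⟨(φ (a i), φ (b i)), Finset.mem_univ _, rfl⟩) (by
            intro i _ j _ hij
            by_contra hne
            obtain ⟨f⟩ := (hq _ _ _ _).1 hij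
            exact (hab i j hne).false f)
        rwa [Finset.card_univ, Fintype.card_fin] at h1
      rw [← hcard] at hm
      obtain ⟨h3, h4⟩ := exists_bi_of_vals hSq (by
        rcases hm with hm | ⟨hi, hm⟩
        · left; omega
        · exact Or.inr ⟨hneg1 hi, by omega⟩)
      refine ⟨h3, ?_⟩
      have h5 := four_le hSq h4
      by_cases hn1 : S.neg = 1
      · exact Or.inr ⟨h5.1, hn1⟩
      · exact Or.inl (h5.2 hn1)
    · rw [← hcard] at h8 hm
      have hle : {x : Fˣ ⧸ squares F | ∃ a : Fˣ, (a : Fˣ ⧸ squares F) = x ∧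
          HalfRigid a}.ncard ≤ (HrF S).card := by
        have hker : squares F ≤ φ.ker := by
          rintro _ ⟨y, rfl⟩
          rw [MonoidHom.mem_ker, hk]
          exact ⟨y, rfl⟩
        rw [← Set.ncard_coe_finset]
        refine Set.ncard_le_ncard_of_injOn (QuotientGroup.lift (squares F) φ hker) ?_ ?_
          (Set.toFinite _)
        · rintro _ ⟨a, rfl, ha⟩
          rw [Finset.mem_coe, mem_HrF, QuotientGroup.lift_mk]
          intro e he
          obtain ⟨c, rfl⟩ := hs e
          rw [q_zero h0 hq h2] at he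
          obtain ⟨y, z, hyz⟩ := he
          rcases ha c y z hyz with ⟨r, hr⟩ | ⟨r, hr⟩
          · left
            rw [hk]
            exact ⟨r, hr.symm⟩
          · right
            have h6 : φ (-a * c) = 1 := by
              rw [hk]
              exact ⟨r, hr.symm⟩
            have h7 : φ (-a) = S.neg * φ a := by rw [← hn, ← map_mul, neg_one_mul]
            rw [map_mul, h7] at h6
            exact (eq_of_mul hSq _ _ h6).symm
        · intro x _ y _ hxy
          obtain ⟨x, rfl⟩ := QuotientGroup.mk_surjective x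
          obtain ⟨y, rfl⟩ := QuotientGroup.mk_surjective y
          rw [QuotientGroup.lift_mk, QuotientGroup.lift_mk] at hxy
          rw [QuotientGroup.eq]
          have h6 : φ (x⁻¹ * y) = 1 := by rw [map_mul, map_inv, hxy, inv_mul_cancel]
          rw [hk] at h6
          obtain ⟨r, hr⟩ := h6
          exact ⟨r, hr.symm⟩
      have hq4 : 4 ≤ Nat.card S.G := by omega
      refine ⟨exists_bi_of_hr hSq (by omega) (by omega), ?_⟩
      rcases h8 with h8 | ⟨h8, hi⟩
      · left; omega
      · exact Or.inr ⟨h8, hneg1 hi⟩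
  obtain ⟨O, hO, hc⟩ := exists_val' hs hk hn h0 hq hSq h2 B hB hbi (exists_beta B hsize)
  have hD : DecInert F K := decInert Pool.Agent.Y620.ET.t_EXTV Pool.Agent.Y37.ET.t_MAX2 F h2 O hO
    hc K hK
  exact ⟨hD, efratTwo F K hD⟩

end Pool.Agent.Results.MP_600e55_nt.ManyQuaternionAlgebras
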