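import Mathlib
import Pool.Agent.X321.MR.Val
import Pool.Agent.X321.MR.Two
import Pool.Agent.Results.MP_600e55_nt.ManyQuaternionAlgebras
import Pool.Agent.Y86.EP.Kum
import Pool.Agent.Y279.EP.Up
import Pool.Agent.Y925.EP.Tower
import Pool.Agent.Y419.EP.Inert
import Pool.Agent.Y469.EP.Max

set_option autoImplicit false

/-! # MP_600e55_nt: Efrat's conjecture for fields with many relations

Let `F` be a field containing a primitive `p`-th root of unity, let `A = F*/F*^p` be of finite
dimension `d`, and let `r` be the dimension of `K₂(F)/p`. For a subspace `X` of `A` put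

  `χ(X) = dim X - (dim X) (dim X - 1) / 2 + dim {X, X}`,

where `{X, X}` is the span of the symbols `{x, y}` with `x, y ∈ X`, so
`χ(F) = χ(A) = d - d (d - 1) / 2 + r`.

We show that the maximal pro-p Galois group of `F` is the decomposition group of a valuation with
nontrivial inertia, so Efrat's arithmetic form of the elementary type conjecture holds for `F`, if
`χ(F) ≥ 4`, that is, `r > (d - 1) (d - 2) / 2 + 2`, and already if `χ(F) ≥ 2`, that is,
`r > (d - 1) (d - 2) / 2`, when `-1` is a `p`-th power (for example if `p` is odd).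

Now let `-1` be a `p`-th power, and assume that there is some `x` such that the classes of `x` and
`1 - x` are independent. Then `F` has a valuation with residue characteristic different from `p`,
with all its one-units in `F*^p` and with value group not divisible by `p` if and only if
`χ(X) < χ(F)` for some subspace `X` which contains the independent classes of some `x` and `1 - x`.
In this case the above conclusion on the Galois group holds too. If `p` is odd and `χ(F) ≥ 2`, the
value group modulo `p` has dimension at least `χ(F) - 1` for a suitable valuation.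

The proof in `Pool/Agent/X321/MR/` chooses a subspace `W` with minimal `χ(W)` and shows that it
contains all pairs of independent classes of elements `x` and `1 - x`. If `p = 2` and `-1` is not a
square, we count half rigid classes and use `ManyQuaternionAlgebras.lean`. -/

namespace Pool.Agent.Results.MP_600e55_nt.ManyRelations

open Module TensorProduct Pool.Agent.X321.MR

/-- the group of `p`-th powers of `F*` -/
def powers (p : ℕ) (F : Type) [Field F] : Subgroup Fˣ := (powMonoidHom p : Fˣ →* Fˣ).range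

/-- `K₁(F)/p`: the group `F* / F*^p`, written additively -/
def K1 (p : ℕ) (F : Type) [Field F] : Type := Additive (Fˣ ⧸ powers p F)

instance instAddCommGroupK1 (p : ℕ) (F : Type) [Field F] : AddCommGroup (K1 p F) :=
  @Additive.addCommGroup (Fˣ ⧸ powers p F) _

/-- the class of a unit in `K₁(F)/p` -/
def cl (p : ℕ) {F : Type} [Field F] (x : Fˣ) : K1 p F := Additive.ofMul (x : Fˣ ⧸ powers p F)

lemma cl_surj {p : ℕ} {F : Type} [Field F] : Function.Surjective (cl p : Fˣ → K1 p F) := by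
  intro x
  obtain ⟨u, hu⟩ := QuotientGroup.mk'_surjective (powers p F) (Additive.toMul x)
  exact ⟨u, hu⟩

lemma cl_zero {p : ℕ} {F : Type} [Field F] (x : Fˣ) : cl p x = 0 ↔ ∃ y : Fˣ, x = y ^ p := by
  have h1 : cl p x = 0 ↔ (x : Fˣ ⧸ powers p F) = 1 := Iff.rfl
  rw [h1, QuotientGroup.eq_one_iff, powers, MonoidHom.mem_range]
  constructor
  · rintro ⟨y, rfl⟩; exact ⟨y, rfl⟩
  · rintro ⟨y, rfl⟩; exact ⟨y, rfl⟩

lemma smul_cl {p : ℕ} {F : Type} [Field F] (x : Fˣ) (n : ℕ) : n • cl p x = cl p (x ^ n) := by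
  induction n with
  | zero => rw [zero_smul, pow_zero]; rfl
  | succ n ih => rw [succ_nsmul, ih, pow_succ]; rfl

lemma nsmul_zero' {p : ℕ} {F : Type} [Field F] (x : K1 p F) : p • x = 0 := by
  obtain ⟨u, rfl⟩ := cl_surj x
  rw [smul_cl, cl_zero]
  exact ⟨u, rfl⟩

/-- `K₁(F)/p` is a vector space over the field with `p` elements -/
instance instModuleK1 (p : ℕ) (F : Type) [Field F] : Module (ZMod p) (K1 p F) :=
  AddCommGroup.zmodModule (n := p) nsmul_zero'

/-- the span of the elements `x ⊗ y` with `x + y = 1` -/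
def Steinberg (p : ℕ) (F : Type) [Field F] : Submodule (ZMod p) (K1 p F ⊗[ZMod p] K1 p F) :=
  Submodule.span (ZMod p) {t | ∃ x y : Fˣ, (x : F) + y = 1 ∧ t = cl p x ⊗ₜ cl p y}

/-- `K₂(F)/p`: the tensor square of `K₁(F)/p` modulo the elements `x ⊗ y` with `x + y = 1` -/
def K2 (p : ℕ) (F : Type) [Field F] : Type := (K1 p F ⊗[ZMod p] K1 p F) ⧸ Steinberg p F

instance instAddCommGroupK2 (p : ℕ) (F : Type) [Field F] : AddCommGroup (K2 p F) :=
  Submodule.Quotient.addCommGroup (Steinberg p F)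

instance instModuleK2 (p : ℕ) (F : Type) [Field F] : Module (ZMod p) (K2 p F) :=
  Submodule.Quotient.module (Steinberg p F)

section

variable {p : ℕ} {F : Type} [Field F]

/-- the symbol `{x, y}` -/
def symbol (x y : K1 p F) : K2 p F := (Steinberg p F).mkQ (x ⊗ₜ y)

/-- `{X, X}`: the span of the symbols `{x, y}` with `x, y ∈ X` -/
def Symbols (X : Submodule (ZMod p) (K1 p F)) : Submodule (ZMod p) (K2 p F) :=
  Submodule.span (ZMod p) {z | ∃ x ∈ X, ∃ y ∈ X, z = symbol x y}

/-- `χ(X) = dim X - (dim X) (dim X - 1) / 2 + dim {X, X}` -/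
noncomputable def chi (X : Submodule (ZMod p) (K1 p F)) : ℤ :=
  (finrank (ZMod p) X : ℤ) - ((finrank (ZMod p) X).choose 2 : ℤ) +
    (finrank (ZMod p) (Symbols X) : ℤ)

variable (p F) in
/-- `χ(F) = d - d (d - 1) / 2 + r`, where `d = dim K₁(F)/p` and `r = dim K₂(F)/p` -/
noncomputable def chiField : ℤ :=
  (finrank (ZMod p) (K1 p F) : ℤ) - ((finrank (ZMod p) (K1 p F)).choose 2 : ℤ) +
    (finrank (ZMod p) (K2 p F) : ℤ)

/-- `X` contains the classes of some `x`, `y` with `x + y = 1`, and these are independent -/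
def HasPair (X : Submodule (ZMod p) (K1 p F)) : Prop :=
  ∃ x y : Fˣ, (x : F) + y = 1 ∧ cl p x ∈ X ∧ cl p y ∈ X ∧
    LinearIndependent (ZMod p) ![cl p x, cl p y]

variable (p F) in
/-- some subspace `X` which contains a pair as above satisfies `χ(X) < χ(F)` -/
def HasSmallSubspace : Prop :=
  ∃ X : Submodule (ZMod p) (K1 p F), HasPair X ∧ chi X < chiField p F

/-- `p` is a unit of `O`, the elements of `1 + m` are `p`-th powers, where `m` is the maximal ideal
of `O`, and not every element of `F*` is the product of a unit of `O` and a `p`-th power -/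
def Good (p : ℕ) (O : ValuationSubring F) : Prop :=
  (p : F)⁻¹ ∈ O ∧ (∀ x : F, x ∈ O → x⁻¹ ∉ O → ∃ y : F, y ^ p = 1 + x) ∧
    O.unitGroup ⊔ powers p F ≠ ⊤

end

/-- `K` is the compositum of the finite Galois extensions of `F` of p-power degree -/
def IsMaximalPExtension (p : ℕ) {F : Type} [Field F]
    (K : IntermediateField F (AlgebraicClosure F)) : Prop :=
  K = sSup {L : IntermediateField F (AlgebraicClosure F) |
    FiniteDimensional F L ∧ IsGalois F L ∧ ∃ k : ℕ, Module.finrank F L = p ^ k}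

/-- `Gal(K/F)` is the decomposition group of a valuation of `K`, and the inertia group is not
trivial -/
def IsDecompositionGroup (F : Type) [Field F] (K : IntermediateField F (AlgebraicClosure F)) :
    Prop :=
  ∃ (Γ : Type) (_ : LinearOrderedCommGroupWithZero Γ) (w : Valuation K Γ),
    (∀ (σ : K ≃ₐ[F] K) (x : K), w (σ x) ≤ 1 ↔ w x ≤ 1) ∧
    ∃ σ : K ≃ₐ[F] K, σ ≠ 1 ∧ ∀ x : K, w x ≤ 1 → w (σ x - x) < 1

/-- `G` is the free pro-p product of the subgroups `H i`: every family of homomorphisms with open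
kernels from the `H i` to a finite `p`-group extends uniquely to `G` -/
def IsFreeProduct (p : ℕ) (G : Type) [Group G] [TopologicalSpace G] {n : ℕ}
    (H : Fin n → Subgroup G) : Prop :=
  ∀ (P : Type) [Group P] [Finite P], (∃ k : ℕ, Nat.card P = p ^ k) →
    ∀ φ : (i : Fin n) → (H i →* P), (∀ i, IsOpen ((φ i).ker : Set (H i))) →
      ∃! ψ : G →* P, IsOpen (ψ.ker : Set G) ∧ ∀ i, ∀ x : H i, ψ (x : G) = φ i x

/-- the subgroup `U` of `Gal(K/F)` is isomorphic to `ℤ_p`, or it is the decomposition group of a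
valuation of `K` with nontrivial inertia group, or `p = 2` and `U` has two elements -/
def IsBasic (p : ℕ) [Fact p.Prime] (F : Type) [Field F]
    (K : IntermediateField F (AlgebraicClosure F)) (U : Subgroup (↥K ≃ₐ[F] ↥K)) : Prop :=
  Nonempty (U ≃ₜ* Multiplicative (PadicInt p)) ∨
  (∃ (Γ : Type) (_ : LinearOrderedCommGroupWithZero Γ) (w : Valuation (↥K) Γ),
    (∀ σ : ↥K ≃ₐ[F] ↥K, σ ∈ U ↔ ∀ x : ↥K, (w (σ x) ≤ 1 ↔ w x ≤ 1)) ∧
    ∃ σ ∈ U, σ ≠ 1 ∧ ∀ x : ↥K, w x ≤ 1 → w (σ x - x) < 1) ∨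
  (p = 2 ∧ Nat.card U = 2)

/-- the conclusion of Q1 for the field `F` with the maximal p-extension `K`: the group `Gal(K/F)`
is a free pro-p product of finitely many closed subgroups of the types (i), (ii), (iii) -/
def ConclusionOfQ1 (p : ℕ) [Fact p.Prime] (F : Type) [Field F]
    (K : IntermediateField F (AlgebraicClosure F)) : Prop :=
  ∃ (n : ℕ) (H : Fin n → Subgroup (↥K ≃ₐ[F] ↥K)),
    (∀ i, IsClosed (H i : Set (↥K ≃ₐ[F] ↥K))) ∧ IsFreeProduct p (↥K ≃ₐ[F] ↥K) H ∧
    ∀ i, IsBasic p F K (H i)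

lemma cls {p : ℕ} [Fact p.Prime] {F : Type} [Field F] (hneg : p ≠ 2 ∨ IsSquare (-1 : F)) :
    Cls (cl p : Fˣ → K1 p F) := by
  refine ⟨fun x y => rfl, ?_⟩
  rw [cl_zero]
  by_cases hp2 : p = 2
  · obtain ⟨r, hr⟩ := hneg.resolve_left (not_not.2 hp2)
    have hr0 : r ≠ 0 := by
      rintro rfl
      rw [mul_zero, neg_eq_zero] at hr
      exact one_ne_zero hr
    refine ⟨Units.mk0 r hr0, Units.ext ?_⟩
    rw [hp2, Units.val_neg, Units.val_one, Units.val_pow_eq_pow_val, Units.val_mk0, hr, pow_two]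
  · exact ⟨-1, ((Fact.out : p.Prime).odd_of_ne_two hp2).neg_one_pow.symm⟩

/-- rigid classes outside of a proper subspace give a valuation -/
lemma main {p : ℕ} [Fact p.Prime] {F : Type} [Field F] (hζ : ∃ ζ : F, IsPrimitiveRoot ζ p)
    (hneg : p ≠ 2 ∨ IsSquare (-1 : F)) (hfin : FiniteDimensional (ZMod p) (K1 p F))
    (W : Submodule (ZMod p) (K1 p F))
    (hWlt : finrank (ZMod p) W < finrank (ZMod p) (K1 p F))
    (hd : 2 ≤ finrank (ZMod p) (K1 p F))
    (hW : ∀ x y : Fˣ, (x : F) + y = 1 → cl p x ∉ W → cl p y = 0 ∨ cl p y = cl p x) :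
    (∃ O : ValuationSubring F, Good p O ∧ (p ≠ 2 →
      p ^ (finrank (ZMod p) (K1 p F) - finrank (ZMod p) W) ≤
        (O.unitGroup ⊔ powers p F).index)) ∧
    ∀ K : IntermediateField F (AlgebraicClosure F), IsMaximalPExtension p K →
      Pool.Agent.Y920.EP.DecInert F K := by
  have hp : p.Prime := Fact.out
  have hpF : (p : F) ≠ 0 := by
    obtain ⟨ζ, hζ⟩ := hζ
    haveI : NeZero p := ⟨hp.ne_zero⟩
    exact hζ.neZero'.ne
  have h := cls (p := p) hneg
  have hA : Finite (K1 p F) := Module.finite_of_finite (ZMod p)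
  obtain ⟨c, hcW⟩ : ∃ c : Fˣ, cl p c ∉ W := by
    by_contra hc
    push Not at hc
    have : W = ⊤ := by
      rw [eq_top_iff]
      intro x _
      obtain ⟨c, rfl⟩ := cl_surj x
      exact hc c
    rw [this, finrank_top] at hWlt
    exact lt_irrefl _ hWlt
  by_cases hp2 : p = 2
  · subst hp2
    have h2 : (2 : F) ≠ 0 := by exact_mod_cast hpF
    have hsq : IsSquare (-1 : F) := hneg.resolve_left (fun h3 => h3 rfl)
    have hFq : Finite (Fˣ ⧸ powers 2 F) := hA
    have h4 : 4 ≤ (powers 2 F).index := by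
      have h5 : (powers 2 F).index = 2 ^ finrank (ZMod 2) (K1 2 F) := by
        have h6 := Module.natCard_eq_pow_finrank (K := ZMod 2) (V := K1 2 F)
        rw [Nat.card_zmod] at h6
        exact h6
      rw [h5]
      calc 4 = 2 ^ 2 := rfl
        _ ≤ _ := Nat.pow_le_pow_right (by norm_num) hd
    obtain ⟨O, hO, hc⟩ := two_part h2 hsq hFq h4 h cl_zero W hW c hcW
    refine ⟨⟨O, ⟨by exact_mod_cast hO.1, ?_, ?_⟩, fun h3 => absurd rfl h3⟩, fun K hK =>
      Pool.Agent.Y920.ETC.decInert Pool.Agent.Y620.ET.t_EXTV Pool.Agent.Y37.ET.t_MAX2 F h2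
        O hO hc K hK⟩
    · intro x hx hx'
      obtain ⟨y, hy⟩ := hO.2.2 x hx hx'
      exact ⟨y, by rw [pow_two]; exact hy.symm⟩
    · intro e
      obtain ⟨c, hc⟩ := hc
      have h5 : c ∈ O.unitGroup ⊔ powers 2 F := by
        rw [e]
        trivial
      rw [Subgroup.mem_sup] at h5
      obtain ⟨u, hu, _, ⟨f, rfl⟩, hcf⟩ := h5
      have h6 : c * f⁻¹ ^ 2 = u := by
        rw [← hcf]
        change u * f ^ 2 * f⁻¹ ^ 2 = u
        rw [mul_assoc, ← mul_pow, mul_inv_cancel, one_pow, mul_one]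
      apply hc f⁻¹
      rw [h6]
      constructor
      · rw [← ValuationSubring.valuation_le_one_iff]
        exact le_of_eq hu
      · rw [← ValuationSubring.valuation_le_one_iff]
        exact le_of_eq (inv_mem hu : u⁻¹ ∈ O.unitGroup)
  · obtain ⟨O, hO, hU, hU'⟩ := odd_part hp2 hpF h cl_zero W hW
    have h1 : O.unitGroup ⊔ powers p F ≤ sgp p h W := by
      refine sup_le hU ?_
      intro x hx
      rw [mem_sgp, (cl_zero x).2 (by
        obtain ⟨y, rfl⟩ := hx
        exact ⟨y, rfl⟩)]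
      exact W.zero_mem
    refine ⟨⟨O, ⟨hO.1, hO.2.2, ?_⟩, ?_⟩, ?_⟩
    · intro e
      rw [e] at h1
      exact hcW (h1 trivial)
    · intro _
      have h2 : (O.unitGroup ⊔ powers p F).index ≠ 0 := by
        have h3 : (powers p F).index ≠ 0 := by
          have : Finite (Fˣ ⧸ powers p F) := hA
          exact Subgroup.index_ne_zero_of_finite
        exact fun e => h3 (Nat.eq_zero_of_zero_dvd (e ▸ Subgroup.index_dvd_of_le le_sup_right))
      have h3 := Nat.le_of_dvd (Nat.pos_of_ne_zero h2) (Subgroup.index_dvd_of_le h1)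
      rwa [index_sgp h cl_surj] at h3
    · intro K hK
      have hG : Pool.Agent.Y920.EP.AllG := ⟨Pool.Agent.Y86.EP.t_KUM, Pool.Agent.Y279.EP.t_UP,
        Pool.Agent.Y925.EP.t_TOWER', Pool.Agent.Y419.EP.t_INERT', Pool.Agent.Y469.EP.t_MAX'⟩
      exact Pool.Agent.Y920.EP.decInert hG p hp hp2 F hζ O hO ⟨c, by
        rintro f ⟨h3, h4⟩
        apply hcW
        have h5 := hU' _ h3 h4
        rwa [h.mul, (cl_zero _).2 ⟨f, rfl⟩, add_zero] at h5⟩ K hK

lemma hasPair_iff {p : ℕ} [Fact p.Prime] {F : Type} [Field F]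
    (X : Submodule (ZMod p) (K1 p F)) : HasPair X ↔
      ∃ x y, St (cl p : Fˣ → K1 p F) x y ∧ Fr (ZMod p) x y ∧ x ∈ X ∧ y ∈ X := by
  constructor
  · rintro ⟨x, y, h1, h2, h3, h4⟩
    exact ⟨_, _, ⟨x, y, h1, rfl, rfl⟩, LinearIndependent.pair_iff.1 h4, h2, h3⟩
  · rintro ⟨_, _, ⟨x, y, h1, rfl, rfl⟩, h4, h2, h3⟩
    exact ⟨x, y, h1, h2, h3, LinearIndependent.pair_iff.2 h4⟩

lemma dl_eq {p : ℕ} [Fact p.Prime] {F : Type} [Field F] (hneg : p ≠ 2 ∨ IsSquare (-1 : F))
    (hfin : FiniteDimensional (ZMod p) (K1 p F)) (X : Submodule (ZMod p) (K1 p F)) :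
    dl (stE (ZMod p) (cl p : Fˣ → K1 p F)) X = chi X := by
  have h1 := finrank_rel (K := ZMod p) (cls (p := p) hneg) cl_surj X
  change finrank (ZMod p) ↥(stE (ZMod p) (cl p : Fˣ → K1 p F) ⊓ into X) +
    finrank (ZMod p) (Symbols X) = (finrank (ZMod p) X).choose 2 at h1
  unfold dl chi
  omega

lemma dl_top {p : ℕ} [Fact p.Prime] {F : Type} [Field F] (hneg : p ≠ 2 ∨ IsSquare (-1 : F))
    (hfin : FiniteDimensional (ZMod p) (K1 p F)) :
    dl (stE (ZMod p) (cl p : Fˣ → K1 p F)) ⊤ = chiField p F := by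
  rw [dl_eq hneg hfin, chi, chiField, finrank_top]
  have h1 : Symbols (⊤ : Submodule (ZMod p) (K1 p F)) = ⊤ := symb_top
  rw [h1, finrank_top]

/-- the case `p = 2` if `-1` is not a square -/
lemma main_two {F : Type} [Field F] (h2 : (2 : F) ≠ 0) (hneg : ¬ IsSquare (-1 : F))
    (hfin : FiniteDimensional (ZMod 2) (K1 2 F)) (hchi : 4 ≤ chiField 2 F)
    (K : IntermediateField F (AlgebraicClosure F)) (hK : IsMaximalPExtension 2 K) :
    Pool.Agent.Y920.EP.DecInert F K := by
  classical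
  have he : cl 2 (-1 : Fˣ) ≠ 0 := by
    intro e
    rw [cl_zero] at e
    obtain ⟨y, hy⟩ := e
    apply hneg
    refine ⟨(y : F), ?_⟩
    have h3 := congrArg (fun u : Fˣ => (u : F)) hy
    simp only [Units.val_neg, Units.val_one, Units.val_pow_eq_pow_val] at h3
    rw [h3, pow_two]
  have hA : Finite (K1 2 F) := Module.finite_of_finite (ZMod 2)
  have hm : ∀ x y : Fˣ, cl 2 (x * y) = cl 2 x + cl 2 y := fun _ _ => rfl
  have hd : 1 ≤ finrank (ZMod 2) (K1 2 F) := by
    have : Nontrivial (K1 2 F) := ⟨⟨_, _, he⟩⟩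
    exact finrank_pos
  have hchoose : (finrank (ZMod 2) (K1 2 F)).choose 2 =
      (finrank (ZMod 2) (K1 2 F) - 1).choose 2 + (finrank (ZMod 2) (K1 2 F) - 1) := by
    obtain ⟨n, hn⟩ : ∃ n, finrank (ZMod 2) (K1 2 F) = n + 1 :=
      ⟨finrank (ZMod 2) (K1 2 F) - 1, by omega⟩
    rw [hn, Nat.add_sub_cancel, Nat.choose_succ_succ' n 1, Nat.choose_one_right, add_comm]
  obtain ⟨hd3, S, hS, hS'⟩ := many_hr (cl := (cl 2 : Fˣ → K1 2 F)) hm cl_surj he (by
    change (finrank (ZMod 2) (K1 2 F) - 1).choose 2 + 3 ≤ finrank (ZMod 2) (K2 2 F)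
    unfold chiField at hchi
    omega)
  have hidx : (powers 2 F).index = 2 ^ finrank (ZMod 2) (K1 2 F) := by
    have h6 := Module.natCard_eq_pow_finrank (K := ZMod 2) (V := K1 2 F)
    rw [Nat.card_zmod] at h6
    exact h6
  have hmany : ManyQuaternionAlgebras.ManyHalfRigid F := by
    refine ⟨Or.inl ?_, ?_⟩
    · change 8 ≤ (powers 2 F).index
      rw [hidx]
      calc 8 = 2 ^ 3 := rfl
        _ ≤ _ := Nat.pow_le_pow_right (by norm_num) hd3
    · change (powers 2 F).index < _
      rw [hidx]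
      refine lt_of_lt_of_le hS (Nat.mul_le_mul_left 2 ?_)
      have hfin' : Finite (Fˣ ⧸ ManyQuaternionAlgebras.squares F) := hA
      rw [← Set.ncard_coe_finset]
      refine Set.ncard_le_ncard_of_injOn (fun x : K1 2 F =>
        (show Fˣ ⧸ ManyQuaternionAlgebras.squares F from Additive.toMul x)) ?_ ?_ (Set.toFinite _)
      · intro x hx
        obtain ⟨a, rfl⟩ := cl_surj x
        refine ⟨a, rfl, ?_⟩
        intro c y z hyz
        by_cases hz : z = 0
        · left
          rw [hz] at hyz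
          have hy : y ≠ 0 := by
            rintro rfl
            exact c.ne_zero (by rw [hyz]; ring)
          exact ⟨Units.mk0 y hy, Units.ext (by
            change y ^ 2 = (c : F)
            rw [hyz]; ring)⟩
        by_cases hy : y = 0
        · right
          refine ⟨a * Units.mk0 z hz, Units.ext ?_⟩
          change ((a : F) * z) ^ 2 = ((-a * c : Fˣ) : F)
          rw [Units.val_mul, Units.val_neg, hyz, hy]
          ring
        set t : Fˣ := Units.mk0 (z / y) (div_ne_zero hz hy) with ht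
        have htv : (t : F) = z / y := rfl
        set y' : Fˣ := Units.mk0 y hy with hy'
        have hy'v : (y' : F) = y := rfl
        have hsq : ∀ u : Fˣ, cl 2 (u ^ 2) = 0 := fun u => (cl_zero _).2 ⟨u, rfl⟩
        have h5 : cl 2 (a * t ^ 2) = cl 2 a := by rw [hm, hsq, add_zero]
        have h7 : cl 2 (c * (y'⁻¹) ^ 2) = cl 2 c := by rw [hm, hsq, add_zero]
        have h8 := hS' _ hx (cl 2 c) (by
          rw [← h5, ← h7]
          refine Submodule.subset_span ⟨_, _, ?_, rfl⟩
          rw [Units.val_mul, Units.val_mul, Units.val_pow_eq_pow_val, Units.val_pow_eq_pow_val,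
            Units.val_inv_eq_inv_val, htv, hy'v, hyz]
          field_simp
          ring)
        rcases h8 with h8 | h8
        · left
          rw [cl_zero] at h8
          obtain ⟨u, hu⟩ := h8
          exact ⟨u, hu.symm⟩
        · right
          have h9 : cl 2 (-a * c) = 0 := by
            have h10 : -a * c = (-1) * (a * c) := by rw [neg_one_mul, neg_mul]
            rw [h10, hm, hm, h8]
            have h11 := add_self_zero (cl 2 a + cl 2 (-1 : Fˣ))
            calc _ = (cl 2 a + cl 2 (-1 : Fˣ)) + (cl 2 a + cl 2 (-1 : Fˣ)) := by abel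
              _ = 0 := h11
          rw [cl_zero] at h9
          obtain ⟨u, hu⟩ := h9
          exact ⟨u, hu.symm⟩
      · intro x _ y _ hxy
        exact hxy
  have hne : (ManyQuaternionAlgebras.squares F).index ≠ 0 := by
    have hfin' : Finite (Fˣ ⧸ ManyQuaternionAlgebras.squares F) := hA
    exact Subgroup.index_ne_zero_of_finite
  exact (ManyQuaternionAlgebras.result F h2 hne (Or.inr hmany) K hK).1

theorem result (p : ℕ) [Fact p.Prime] (F : Type) [Field F] (hζ : ∃ ζ : F, IsPrimitiveRoot ζ p)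
    (hfin : FiniteDimensional (ZMod p) (K1 p F)) :
    -- the maximal pro-p Galois group
    (4 ≤ chiField p F ∨
        ((p ≠ 2 ∨ IsSquare (-1 : F)) ∧ (2 ≤ chiField p F ∨ HasSmallSubspace p F)) →
      ∀ K : IntermediateField F (AlgebraicClosure F), IsMaximalPExtension p K →
        IsDecompositionGroup F K ∧ ConclusionOfQ1 p F K) ∧
    -- the fields with a valuation
    ((p ≠ 2 ∨ IsSquare (-1 : F)) → (HasSmallSubspace p F ↔
      HasPair (⊤ : Submodule (ZMod p) (K1 p F)) ∧ ∃ O : ValuationSubring F, Good p O)) ∧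
    -- for odd `p`: a valuation with a large value group modulo `p`
    (p ≠ 2 → 2 ≤ chiField p F → ∃ O : ValuationSubring F, Good p O ∧
      p ^ (chiField p F - 1).toNat ≤ (O.unitGroup ⊔ powers p F).index) := by
  have hX : (p ≠ 2 ∨ IsSquare (-1 : F)) → HasSmallSubspace p F →
      ∃ W : Submodule (ZMod p) (K1 p F), finrank (ZMod p) W < finrank (ZMod p) (K1 p F) ∧
        2 ≤ finrank (ZMod p) (K1 p F) ∧
        ∀ x y : Fˣ, (x : F) + y = 1 → cl p x ∉ W → cl p y = 0 ∨ cl p y = cl p x := by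
    rintro hneg ⟨X, h1, h2⟩
    exact exists_rigid' (cls (p := p) hneg) ⟨X, (hasPair_iff X).1 h1, by
      rw [dl_eq hneg hfin, dl_top hneg hfin]
      exact h2⟩
  have hdec : ∀ K : IntermediateField F (AlgebraicClosure F), IsMaximalPExtension p K →
      (p ≠ 2 ∨ IsSquare (-1 : F)) → (2 ≤ chiField p F ∨ HasSmallSubspace p F) →
      Pool.Agent.Y920.EP.DecInert F K := by
    intro K hK hneg hX'
    rcases hX' with hrel | hX'
    · obtain ⟨W, hW1, hd, hW⟩ := exists_rigid (cls (p := p) hneg)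
        (by rw [dl_top hneg hfin]; exact hrel)
      rw [dl_top hneg hfin] at hW1
      exact (main hζ hneg hfin W (by omega) hd hW).2 K hK
    · obtain ⟨W, h1, h2, h3⟩ := hX hneg hX'
      exact (main hζ hneg hfin W h1 h2 h3).2 K hK
  refine ⟨?_, fun hneg => ⟨?_, ?_⟩, ?_⟩
  · intro hX' K hK
    have hD : Pool.Agent.Y920.EP.DecInert F K := by
      rcases hX' with h4 | ⟨hneg, hX'⟩
      · by_cases hneg : p ≠ 2 ∨ IsSquare (-1 : F)
        · exact hdec K hK hneg (Or.inl (by omega))
        · rw [not_or, not_not] at hneg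
          obtain ⟨rfl, hneg⟩ := hneg
          have h2 : (2 : F) ≠ 0 := by
            intro e
            exact hneg ⟨1, by rw [mul_one]; linear_combination -e⟩
          exact main_two h2 hneg hfin h4 K hK
      · exact hdec K hK hneg hX'
    exact ⟨hD, Pool.Agent.Y920.EP.efratP p F K hD⟩
  · intro hX'
    obtain ⟨W, h1, h2, h3⟩ := hX hneg hX'
    obtain ⟨X, ⟨x, y, hxy, -, -, hf⟩, -⟩ := hX'
    obtain ⟨⟨O, hO, -⟩, -⟩ := main hζ hneg hfin W h1 h2 h3
    exact ⟨⟨x, y, hxy, trivial, trivial, hf⟩, O, hO⟩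
  · rintro ⟨hpair, O, hO⟩
    rw [hasPair_iff] at hpair
    obtain ⟨x, y, h1, h2, -, -⟩ := hpair
    obtain ⟨c, hc⟩ : ∃ c : Fˣ, c ∉ O.unitGroup ⊔ powers p F := by
      by_contra hc
      push Not at hc
      exact hO.2.2 (by rw [eq_top_iff]; exact fun c _ => hc c)
    obtain ⟨X, h3, h4⟩ := exists_X (cls (p := p) hneg) cl_zero ⟨x, y, h1, h2⟩ O hO.2.1 c (by
      rintro u f hu rfl
      exact hc (Subgroup.mul_mem_sup hu ⟨f, rfl⟩))
    rw [dl_eq hneg hfin, dl_top hneg hfin] at h4
    exact ⟨X, (hasPair_iff X).2 h3, h4⟩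
  · intro hp2 hrel
    have hneg : p ≠ 2 ∨ IsSquare (-1 : F) := Or.inl hp2
    obtain ⟨W, hW1, hd, hW⟩ := exists_rigid (cls (p := p) hneg)
      (by rw [dl_top hneg hfin]; exact hrel)
    rw [dl_top hneg hfin] at hW1
    obtain ⟨⟨O, hO, hO'⟩, -⟩ := main hζ hneg hfin W (by omega) hd hW
    exact ⟨O, hO, le_trans (Nat.pow_le_pow_right (Fact.out : p.Prime).pos (by omega)) (hO' hp2)⟩

end Pool.Agent.Results.MP_600e55_nt.ManyRelations
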