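import Pool.Agent.X264.ET.Main

/-!
# The elementary type conjecture and fields of finite transcendence degree
-/

set_option autoImplicit false

open Pool.Agent.X264.ET

namespace Pool.Agent.Results.MP_600e55_nt.TranscendenceDegree

/-- **Finitely generated maximal pro-`p` Galois groups come from fields of small transcendence
degree.** Let `F` be a field with a primitive `p`-th root of unity and `F*/F*^p` of order `p^n`.
(1) There is a set `S` of at most `n (n + 1) / 2` elements of `F` such that for all subfields `L` of
`F` which contain `S` and are closed under `p`-th roots in `F` the maps of `K_1/p` and of `K_2/p` of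
`L ⊆ F` are bijective.
(2) For each finite set `T` in `F` there is a subfield `L` of `F` which contains `T`, is relatively
algebraically closed in `F` and of transcendence degree at most `n (n + 1) / 2 + |T|` over its prime
field, such that these maps are bijective; so `G_F(p)` and `G_L(p)` are isomorphic by the theorem
of Merkurjev and Suslin.
(3), (4) Hence an invariant property of topological groups holds for the groups `G_F(p)` of all such
`F` if and only if it does for those of transcendence degree at most `n (n + 1) / 2` over the prime
field, and (with the lifting of such groups to characteristic zero) of characteristic zero. -/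
theorem result (p : ℕ) [Fact p.Prime] (n : ℕ) :
    (∀ (F : Type) [Field F], HasRank p n F → ∃ S : Finset F, S.card ≤ (n + 1).choose 2 ∧
      ∀ L : Subfield F, (∀ x ∈ S, x ∈ L) → (∀ x : F, x ^ p ∈ L → x ∈ L) →
        HasRank p n L ∧ KIso p L.subtype) ∧
    (∀ (F : Type) [Field F], HasRank p n F → ∀ T : Finset F,
      ∃ L : Subfield F, IsRelClosed L ∧ (∀ x ∈ T, x ∈ L) ∧
        TrdegLe L ((n + 1).choose 2 + T.card) ∧ HasRank p n L ∧ KIso p L.subtype ∧
        (MerkurjevSuslin p → SameGal p F L)) ∧
    (MerkurjevSuslin p → ∀ P : (G : Type) → [Group G] → [TopologicalSpace G] → Prop,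
      IsInvariant P →
      ((∀ (F : Type) [Field F], HasRank p n F → Holds P p F) ↔
        ∀ (F : Type) [Field F], HasRank p n F → TrdegLe F ((n + 1).choose 2) →
          Holds P p F)) ∧
    (MerkurjevSuslin p → LiftsToCharZero p →
      ∀ P : (G : Type) → [Group G] → [TopologicalSpace G] → Prop, IsInvariant P →
      ((∀ (F : Type) [Field F], HasRank p n F → Holds P p F) ↔
        ∀ (F : Type) [Field F], CharZero F → HasRank p n F → TrdegLe F ((n + 1).choose 2) →
          Holds P p F)) := by
  refine ⟨fun F _ h => reduction p h, fun F _ h T => ?_, fun hMS P hP => iff_trdeg p hMS P hP,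
    fun hMS hLC P hP => iff_charZero p hMS hLC P hP⟩
  obtain ⟨L, h1, h2, h3, h4, h5⟩ := exists_subfield p h T
  exact ⟨L, h1, h2, h3, h4, h5, fun hMS => hMS F L h4.1 h5⟩

end Pool.Agent.Results.MP_600e55_nt.TranscendenceDegree
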