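import Mathlib
import Pool.Agent.X269.EF.OddP
import Pool.Agent.Y920.EP.GalP
import Pool.Agent.Y86.EP.Kum
import Pool.Agent.Y279.EP.Up
import Pool.Agent.Y925.EP.Tower
import Pool.Agent.Y419.EP.Inert
import Pool.Agent.Y469.EP.Max

set_option autoImplicit false

/-! # MP_600e55_nt: Efrat's conjecture for fields with transitive norm groups, `p` odd

Let `p` be an odd prime, `F` a field with a primitive `p`-th root of unity, `N(a)` the norm group of
`F(a^(1/p))`, and `H` a subgroup of `F*` which contains the `p`-th powers. Suppose that for all `a`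
outside `H` the group `N(a)` contains `N(c)` for all its elements `c` which are not `p`-th powers,
and that `H N(a)` is not `F*` unless `1 - a` lies in `F*^p` or in `a F*^p`. If `H` is not `F*`, then
the maximal pro-`p` Galois group of `F` is the decomposition group of a valuation with nontrivial
inertia group. No finiteness is assumed. -/

namespace Pool.Agent.Results.MP_600e55_nt.TransitiveNormGroups

open Pool.Agent.Y920.EP

/-- the group of `p`-th powers of `F*` -/
def powers (F : Type) [Field F] (p : ℕ) : Subgroup Fˣ := (powMonoidHom p : Fˣ →* Fˣ).range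

open Polynomial in
/-- the norms to `F` of the units of the algebra `F[X]/(X^p - a)`: the norm group of the field
`F(a^(1/p))` if `a` is not a `p`-th power -/
noncomputable def normGroup {F : Type} [Field F] (p : ℕ) (a : Fˣ) : Subgroup Fˣ :=
  (Units.map (Algebra.norm F : AdjoinRoot (X ^ p - C (a : F)) →* F)).range

/-- `K` is the compositum of the finite Galois extensions of `F` of `p`-power degree -/
def IsMaximalPExtension (p : ℕ) {F : Type} [Field F]
    (K : IntermediateField F (AlgebraicClosure F)) : Prop :=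
  K = sSup {L : IntermediateField F (AlgebraicClosure F) |
    FiniteDimensional F L ∧ IsGalois F L ∧ ∃ k : ℕ, Module.finrank F L = p ^ k}

theorem result (p : ℕ) [Fact p.Prime] (hp2 : p ≠ 2) (F : Type) [Field F]
    (hζ : ∃ ζ : F, IsPrimitiveRoot ζ p) (H : Subgroup Fˣ) (hpH : powers F p ≤ H) (hH : H ≠ ⊤)
    (htr : ∀ a : Fˣ, a ∉ H → ∀ c ∈ normGroup p a, c ∉ powers F p → normGroup p c ≤ normGroup p a)
    (hbig : ∀ a b : Fˣ, a ∉ H → (b : F) = 1 - a → b ∉ powers F p → b / a ∉ powers F p →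
      H ⊔ normGroup p a ≠ ⊤) :
    -- a valuation ring whose units do not represent all classes and whose one-units are
    -- `p`-th powers
    (∃ O : ValuationSubring F, (p : F)⁻¹ ∈ O ∧ (∀ x : F, x ∈ O → x⁻¹ ∉ O → ∃ y : F, y ^ p = 1 + x) ∧
      O.unitGroup ⊔ powers F p ≠ ⊤ ∧
      (O.unitGroup ≤ H ∨ ∃ b : Fˣ, b ∉ H ∧ O.unitGroup ≤ H ⊔ normGroup p b)) ∧
    ∀ K : IntermediateField F (AlgebraicClosure F), IsMaximalPExtension p K →
      -- `Gal(K/F)` is the decomposition group of a valuation with nontrivial inertia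
      (∃ (Γ : Type) (_ : LinearOrderedCommGroupWithZero Γ) (w : Valuation K Γ),
        (∀ (σ : K ≃ₐ[F] K) (x : K), w (σ x) ≤ 1 ↔ w x ≤ 1) ∧
        ∃ σ : K ≃ₐ[F] K, σ ≠ 1 ∧ ∀ x : K, w x ≤ 1 → w (σ x - x) < 1) ∧
      -- the conclusion of Q1
      ∃ (n : ℕ) (H : Fin n → Subgroup (↥K ≃ₐ[F] ↥K)),
        (∀ i, IsClosed (H i : Set (↥K ≃ₐ[F] ↥K))) ∧
        (∀ (P : Type) [Group P] [Finite P], (∃ k : ℕ, Nat.card P = p ^ k) →
          ∀ φ : (i : Fin n) → (H i →* P), (∀ i, IsOpen ((φ i).ker : Set (H i))) →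
            ∃! ψ : (↥K ≃ₐ[F] ↥K) →* P,
              IsOpen (ψ.ker : Set (↥K ≃ₐ[F] ↥K)) ∧
              ∀ i, ∀ x : H i, ψ (x : ↥K ≃ₐ[F] ↥K) = φ i x) ∧
        (∀ i,
          Nonempty (H i ≃ₜ* Multiplicative (PadicInt p)) ∨
          (∃ (Γ : Type) (_ : LinearOrderedCommGroupWithZero Γ) (w : Valuation (↥K) Γ),
            (∀ σ : ↥K ≃ₐ[F] ↥K, σ ∈ H i ↔ ∀ x : ↥K, (w (σ x) ≤ 1 ↔ w x ≤ 1)) ∧
            ∃ σ ∈ H i, σ ≠ 1 ∧ ∀ x : ↥K, w x ≤ 1 → w (σ x - x) < 1) ∨
          (p = 2 ∧ Nat.card (H i) = 2)) := by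
  have hp : p.Prime := Fact.out
  have hG : AllG := ⟨Pool.Agent.Y86.EP.t_KUM, Pool.Agent.Y279.EP.t_UP,
    Pool.Agent.Y925.EP.t_TOWER', Pool.Agent.Y419.EP.t_INERT', Pool.Agent.Y469.EP.t_MAX'⟩
  obtain ⟨O, hO, hU⟩ := Pool.Agent.X269.EF.odd_ring p hp hp2 F hζ H hpH htr
  have hle : ∀ a : Fˣ, powers F p ≤ normGroup p a := by
    rintro a _ ⟨y, rfl⟩
    exact (Pool.Agent.Y349.EP.t_NG p hp hp2 F).1 a y
  have hne : O.unitGroup ⊔ powers F p ≠ ⊤ := by
    rcases hU with h | ⟨b, c, hb, hbc, h1, h2, h3⟩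
    · exact fun e => hH (top_le_iff.1 (e ▸ sup_le h hpH))
    · exact fun e => hbig b c hb hbc h1 h2
        (top_le_iff.1 (e ▸ sup_le h3 ((hle b).trans le_sup_right)))
  refine ⟨⟨O, hO.1, hO.2.2, hne, hU.imp id fun ⟨b, c, hb, _, _, _, h⟩ => ⟨b, hb, h⟩⟩, ?_⟩
  intro K hK
  obtain ⟨c, hc⟩ : ∃ c : Fˣ, c ∉ O.unitGroup ⊔ powers F p := by
    by_contra hc
    push Not at hc
    exact hne ((Subgroup.eq_top_iff' _).2 hc)
  have hD : DecInert F K := decInert hG p hp hp2 F hζ O hO ⟨c, ?_⟩ K hK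
  · exact ⟨hD, efratP p F K hD⟩
  · rintro f ⟨h6, h7⟩
    apply hc
    have h8 : c * f ^ p ∈ O.unitGroup := by
      rw [ValuationSubring.mem_unitGroup_iff]
      refine le_antisymm ((ValuationSubring.valuation_le_one_iff _ _).2 h6) ?_
      have h9 := (ValuationSubring.valuation_le_one_iff O _).2 h7
      rw [Units.val_inv_eq_inv_val, map_inv₀] at h9
      have h10 : O.valuation ((c * f ^ p : Fˣ) : F) ≠ 0 := by
        rw [Valuation.ne_zero_iff]
        exact Units.ne_zero _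
      exact (inv_le_one₀ (zero_lt_iff.2 h10)).1 h9
    have h11 : f ^ p ∈ O.unitGroup ⊔ powers F p := Subgroup.mem_sup_right ⟨f, rfl⟩
    have h12 := mul_mem (Subgroup.mem_sup_left h8 : c * f ^ p ∈ O.unitGroup ⊔ powers F p)
      (inv_mem h11)
    rwa [mul_inv_cancel_right] at h12

end Pool.Agent.Results.MP_600e55_nt.TransitiveNormGroups
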